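import Pool.Agent.TH390.Tw.N3

/-!
# Vojta's inequality for the root stacks of projective space along almost all hypersurfaces

`F 0, …, F (r - 1)` run through all forms of degrees `d i` in `n + 1` variables with integer
coefficients in `[-H, H]`.  For all but a power-saving proportion of these tuples, Vojta's inequality
with truncated counting function holds, with constant `0`, for the integral points of height at most
`H ^ θ`, some `θ > 1`, of all root stacks of `Pⁿ` along the hypersurfaces `F i = 0`, uniformly in the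
orders, the boundary divisor and the set `S` of excluded primes.
-/

set_option autoImplicit false

namespace Pool.Agent.Results.MP_a41896_nt.AlmostAllHypersurfaces

open Finset Pool.Agent.TH390.Tw

/-- `x` has coprime coordinates: it represents a point of `Pⁿ(ℚ)` -/
def Primitive {n : ℕ} (x : Fin (n + 1) → ℤ) : Prop := ∀ p : ℕ, p.Prime → ∃ j, ¬ (p : ℤ) ∣ x j

/-- the logarithmic height `log max |x j|` -/
noncomputable def height {n : ℕ} (x : Fin (n + 1) → ℤ) : ℝ :=
  Real.log ((Finset.univ.sup fun j => (x j).natAbs : ℕ) : ℝ)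

/-- for all `i` not in `J`, at all primes `p` outside `S`, the intersection number of `x` and the
divisor of `F i` is `0` or at least `e i` -/
def IsIntegral {n r : ℕ} (S : Finset ℕ) (J : Finset (Fin r)) (e : Fin r → ℕ)
    (F : Fin r → MvPolynomial (Fin (n + 1)) ℤ) (x : Fin (n + 1) → ℤ) : Prop :=
  ∀ i, i ∉ J → ∀ p : ℕ, p.Prime → p ∉ S → (p : ℤ) ∣ MvPolynomial.eval x (F i) →
    (p : ℤ) ^ e i ∣ MvPolynomial.eval x (F i)

/-- the truncated counting function: the sum of `log p` over the primes `p` outside `S` which divide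
`F i x` for some `i` in `J` -/
noncomputable def truncated {n r : ℕ} (S : Finset ℕ) (J : Finset (Fin r))
    (F : Fin r → MvPolynomial (Fin (n + 1)) ℤ) (x : Fin (n + 1) → ℤ) : ℝ :=
  ∑ p ∈ (∏ i ∈ J, MvPolynomial.eval x (F i)).natAbs.primeFactors \ S, Real.log p

/-- the coefficient of `D i` in `K + D_J`: it is `1` for `i` in `J` and `1 - 1 / e i` otherwise -/
noncomputable def coefficient {r : ℕ} (e : Fin r → ℕ) (J : Finset (Fin r)) (i : Fin r) : ℝ := by
  classical
  exact if i ∈ J then 1 else 1 - 1 / (e i : ℝ)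

/-- the degree of `K_X + D_J` on the root stack `X` -/
noncomputable def canonicalDegree (n : ℕ) {r : ℕ} (d e : Fin r → ℕ) (J : Finset (Fin r)) : ℝ :=
  ∑ i, coefficient e J i * d i - (n + 1)

/-- the tuples of forms of degrees `d i` with coefficients in `[-H, H]` for which, for some `S` with
`∏_{p ∈ S} p ≤ H ^ κ`, some integral point in `A` off the divisors `F i = 0`, `i` in `J`, has
`N¹_S(J, x) ≤ l log H + τ h(x)` -/
def Bad (n : ℕ) {r : ℕ} (d e : Fin r → ℕ) (J : Finset (Fin r)) (κ l τ : ℝ) (H : ℕ)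
    (A : Set (Fin (n + 1) → ℤ)) : Set (Fin r → MvPolynomial (Fin (n + 1)) ℤ) :=
  {F | (∀ i, (F i).IsHomogeneous (d i)) ∧ (∀ i m, |(F i).coeff m| ≤ (H : ℤ)) ∧
    ∃ S : Finset ℕ, (∀ p ∈ S, p.Prime) ∧ ∏ p ∈ S, (p : ℝ) ≤ (H : ℝ) ^ κ ∧
      ∃ x ∈ A, Primitive x ∧ (∀ i ∈ J, MvPolynomial.eval x (F i) ≠ 0) ∧ IsIntegral S J e F x ∧
        truncated S J F x ≤ l * Real.log H + τ * height x}

/-- the tuples for which Vojta's inequality fails for some `S` with `∏_{p ∈ S} p ≤ H ^ κ`, some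
orders `e i`, some boundary `J` and some integral point of height at most `H ^ θ` -/
def Violating (n : ℕ) {r : ℕ} (d : Fin r → ℕ) (κ θ δ : ℝ) (H : ℕ) :
    Set (Fin r → MvPolynomial (Fin (n + 1)) ℤ) :=
  {F | (∀ i, (F i).IsHomogeneous (d i)) ∧ (∀ i m, |(F i).coeff m| ≤ (H : ℤ)) ∧
    ∃ S : Finset ℕ, (∀ p ∈ S, p.Prime) ∧ ∏ p ∈ S, (p : ℝ) ≤ (H : ℝ) ^ κ ∧
      ∃ (J : Finset (Fin r)) (e : Fin r → ℕ), (∀ i, 1 ≤ e i) ∧
        ∃ x : Fin (n + 1) → ℤ, (∀ j, |(x j : ℝ)| ≤ (H : ℝ) ^ θ) ∧ Primitive x ∧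
          (∀ i ∈ J, MvPolynomial.eval x (F i) ≠ 0) ∧ IsIntegral S J e F x ∧
          truncated S J F x < (canonicalDegree n d e J - δ) * height x}

theorem coefficient_eq {r : ℕ} (e : Fin r → ℕ) (J : Finset (Fin r)) (i : Fin r) :
    coefficient e J i = 1 - uw e J i := by
  unfold coefficient uw
  split_ifs
  · ring
  · rfl

theorem height_eq {n : ℕ} (x : Fin (n + 1) → ℤ) : height x = Real.log (nrm x) := rfl

/-- the general bound -/
theorem bad_bound (n : ℕ) {r : ℕ} (d e : Fin r → ℕ) (he : ∀ i, 1 ≤ e i) (J : Finset (Fin r))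
    (κ l τ θ φ : ℝ) (hκ0 : 0 ≤ κ) (hl : 0 ≤ l) (hτ : 0 ≤ τ) (hθ : 1 ≤ θ)
    (h1 : τ < canonicalDegree n d e J)
    (h2 : κ + l < ∑ i, coefficient e J i)
    (h3 : φ + κ + l + τ * θ + ∑ i, (1 + θ * d i) * (1 - coefficient e J i) <
      ∑ i, ((d i : ℝ) + 1)) :
    ∃ η C : ℝ, 0 < η ∧ ∀ H : ℕ, 1 ≤ H → ∀ A : Finset (Fin (n + 1) → ℤ),
      (A.card : ℝ) ≤ 3 ^ (n + 1) * (H : ℝ) ^ φ →
      (∀ x ∈ A, ∀ j, |(x j : ℝ)| ≤ (H : ℝ) ^ θ) →
      (Bad n d e J κ l τ H A).Finite ∧ ((Bad n d e J κ l τ H A).ncard : ℝ) ≤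
        C * (H : ℝ) ^ (∑ i, ((n + d i).choose n : ℝ) - η) := by
  classical
  have g1 : (n : ℝ) + 1 + τ < ∑ i, (1 - uw e J i) * d i := by
    unfold canonicalDegree at h1
    simp only [coefficient_eq] at h1
    linarith
  have g2 : κ + l < ∑ i, (1 - uw e J i) := by
    simp only [coefficient_eq] at h2
    exact h2
  have g3 : φ + κ + l + τ * θ + ∑ i, (1 + θ * d i) * uw e J i < ∑ i, ((d i : ℝ) + 1) := by
    simp only [coefficient_eq, sub_sub_cancel] at h3
    exact h3
  obtain ⟨η, C, hη, hmain⟩ := mainTuples n d e he J κ l τ θ φ hκ0 hl hτ hθ g1 g2 g3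
  refine ⟨η, C, hη, fun H hH A hA hAB => ?_⟩
  have hHR : (1 : ℝ) ≤ H := by exact_mod_cast hH
  have hHR0 : (0 : ℝ) < H := by linarith
  obtain ⟨V, hV, hVc⟩ := hmain H hH A hA hAB
  set vv : (Fin r → MvPolynomial (Fin (n + 1)) ℤ) → (∀ i : Fin r, Idx n (d i) → ℤ) :=
    fun F i => vec (d i) (F i) with hvv
  have hmaps : ∀ F ∈ Bad n d e J κ l τ H A,
      vv F ∈ (V : Set (∀ i : Fin r, Idx n (d i) → ℤ)) := by
    rintro F ⟨hF, hFb, S, hS, hSQ, x, hxA, hxp, hx0, hxi, hxt⟩
    have hev : ∀ i, ev x (vv F i) = MvPolynomial.eval x (F i) := fun i => ev_vec (F i) (hF i) x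
    set P : ℤ := ∏ i ∈ J, MvPolynomial.eval x (F i) with hP
    have hP0 : P ≠ 0 := Finset.prod_ne_zero_iff.mpr hx0
    set T : Finset ℕ := P.natAbs.primeFactors \ S with hT
    have hTp : ∀ p ∈ T, p.Prime := fun p hp =>
      Nat.prime_of_mem_primeFactors (Finset.mem_sdiff.mp hp).1
    have hxn : 1 ≤ nrm x := Prim.nrm_pos (x := x) hxp
    have hxR : (0 : ℝ) < nrm x := by exact_mod_cast hxn
    refine Finset.mem_coe.mpr (hV (vv F) (fun i => mem_vbox.mpr fun m => hFb i _) x hxA hxp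
      (∏ p ∈ S, p) (∏ p ∈ T, p) ?_ ?_ ?_ ?_ ?_ ?_)
    · exact Finset.prod_pos fun p hp => (hS p hp).pos
    · rw [Nat.cast_prod]
      exact hSQ
    · exact Finset.prod_pos fun p hp => (hTp p hp).pos
    · have hlog : Real.log ((∏ p ∈ T, p : ℕ) : ℝ) ≤ l * Real.log H + τ * Real.log (nrm x) := by
        rw [Nat.cast_prod, Real.log_prod (fun p hp => by
          have := (hTp p hp).pos
          positivity)]
        exact hxt
      have hpos : (0 : ℝ) < ((∏ p ∈ T, p : ℕ) : ℝ) := by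
        exact_mod_cast Finset.prod_pos fun p hp => (hTp p hp).pos
      calc ((∏ p ∈ T, p : ℕ) : ℝ) = Real.exp (Real.log ((∏ p ∈ T, p : ℕ) : ℝ)) :=
            (Real.exp_log hpos).symm
        _ ≤ Real.exp (l * Real.log H + τ * Real.log (nrm x)) := Real.exp_le_exp.mpr hlog
        _ = (H : ℝ) ^ l * (nrm x : ℝ) ^ τ := by
            rw [Real.exp_add, Real.rpow_def_of_pos hHR0, Real.rpow_def_of_pos hxR,
              mul_comm l, mul_comm τ]
    · intro i hi p hp hpq hdvd
      rw [hev] at hdvd ⊢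
      refine hxi i hi p hp ?_ hdvd
      intro hpS
      exact hpq (Finset.dvd_prod_of_mem _ hpS)
    · intro i hi
      rw [hev]
      refine ⟨hx0 i hi, ?_⟩
      intro p hp hdvd
      by_cases hpS : p ∈ S
      · exact (Finset.dvd_prod_of_mem _ hpS).mul_right _
      · refine Dvd.dvd.mul_left (Finset.dvd_prod_of_mem _ ?_) _
        rw [hT, Finset.mem_sdiff, Nat.mem_primeFactors]
        refine ⟨⟨hp, ?_, Int.natAbs_ne_zero.mpr hP0⟩, hpS⟩
        have h4 : (p : ℤ) ∣ P := hdvd.trans (Finset.dvd_prod_of_mem _ hi)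
        exact Int.natCast_dvd.mp h4
  have hinj : Set.InjOn vv (Bad n d e J κ l τ H A) := by
    rintro F ⟨hF, _⟩ F' ⟨hF', _⟩ hFF
    funext i
    exact vec_inj (hF i) (hF' i) (congrFun hFF i)
  refine ⟨Set.Finite.of_injOn hmaps hinj V.finite_toSet, ?_⟩
  have h4 := Set.ncard_le_ncard_of_injOn vv hmaps hinj V.finite_toSet
  rw [Set.ncard_coe_finset] at h4
  have h5 : ((Bad n d e J κ l τ H A).ncard : ℝ) ≤ V.card := by exact_mod_cast h4
  exact h5.trans hVc

/-- finite unions -/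
theorem union_bound {α ι : Type*} (N : ℝ) (T : Finset ι) (Z : ι → ℕ → Set α)
    (h : ∀ t ∈ T, ∃ η C : ℝ, 0 < η ∧ ∀ H : ℕ, 1 ≤ H → (Z t H).Finite ∧
      ((Z t H).ncard : ℝ) ≤ C * (H : ℝ) ^ (N - η)) :
    ∃ η C : ℝ, 0 < η ∧ ∀ H : ℕ, 1 ≤ H → (⋃ t ∈ T, Z t H).Finite ∧
      ((⋃ t ∈ T, Z t H).ncard : ℝ) ≤ C * (H : ℝ) ^ (N - η) := by
  classical
  induction T using Finset.induction_on with
  | empty =>
    refine ⟨1, 0, one_pos, fun H _ => ?_⟩
    simp
  | insert a T ha ih =>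
    obtain ⟨η₁, C₁, hη₁, h₁⟩ := h a (Finset.mem_insert_self a T)
    obtain ⟨η₂, C₂, hη₂, h₂⟩ := ih fun t ht => h t (Finset.mem_insert_of_mem ht)
    refine ⟨min η₁ η₂, max C₁ 0 + max C₂ 0, lt_min hη₁ hη₂, fun H hH => ?_⟩
    obtain ⟨f₁, b₁⟩ := h₁ H hH
    obtain ⟨f₂, b₂⟩ := h₂ H hH
    have hHR : (1 : ℝ) ≤ H := by exact_mod_cast hH
    rw [Finset.set_biUnion_insert]
    refine ⟨f₁.union f₂, ?_⟩
    have h3 := Set.ncard_union_le (Z a H) (⋃ t ∈ T, Z t H)
    have e₁ : (H : ℝ) ^ (N - η₁) ≤ (H : ℝ) ^ (N - min η₁ η₂) :=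
      Real.rpow_le_rpow_of_exponent_le hHR (by have := min_le_left η₁ η₂; linarith)
    have e₂ : (H : ℝ) ^ (N - η₂) ≤ (H : ℝ) ^ (N - min η₁ η₂) :=
      Real.rpow_le_rpow_of_exponent_le hHR (by have := min_le_right η₁ η₂; linarith)
    calc ((Z a H ∪ ⋃ t ∈ T, Z t H).ncard : ℝ) ≤
          ((Z a H).ncard : ℝ) + ((⋃ t ∈ T, Z t H).ncard : ℝ) := by exact_mod_cast h3
      _ ≤ C₁ * (H : ℝ) ^ (N - η₁) + C₂ * (H : ℝ) ^ (N - η₂) := add_le_add b₁ b₂
      _ ≤ max C₁ 0 * (H : ℝ) ^ (N - min η₁ η₂) + max C₂ 0 * (H : ℝ) ^ (N - min η₁ η₂) := by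
          refine add_le_add ?_ ?_
          · exact mul_le_mul (le_max_left _ _) e₁ (by positivity) (le_max_right _ _)
          · exact mul_le_mul (le_max_left _ _) e₂ (by positivity) (le_max_right _ _)
      _ = _ := by ring

/-- the points of height at most `H ^ θ` -/
theorem exists_ball (n H : ℕ) (hH : 1 ≤ H) (θ : ℝ) (hθ : 0 ≤ θ) :
    ∃ A : Finset (Fin (n + 1) → ℤ), (∀ x, x ∈ A ↔ ∀ j, |(x j : ℝ)| ≤ (H : ℝ) ^ θ) ∧
      (A.card : ℝ) ≤ 3 ^ (n + 1) * (H : ℝ) ^ (((n : ℝ) + 1) * θ) := by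
  classical
  have hHR : (1 : ℝ) ≤ H := by exact_mod_cast hH
  have hHR0 : (0 : ℝ) < H := by linarith
  set L : ℕ := ⌊(H : ℝ) ^ θ⌋₊ with hL
  have hL1 : (1 : ℝ) ≤ (H : ℝ) ^ θ := Real.one_le_rpow hHR hθ
  have hLr : (L : ℝ) ≤ (H : ℝ) ^ θ := Nat.floor_le (by positivity)
  refine ⟨Fintype.piFinset fun _ => Icc (-(L : ℤ)) L, ?_, ?_⟩
  · intro x
    have hz : ∀ z : ℤ, z ∈ Icc (-(L : ℤ)) (L : ℤ) ↔ |(z : ℝ)| ≤ (H : ℝ) ^ θ := by
      intro z
      rw [mem_Icc, ← abs_le]
      constructor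
      · intro h1
        have : |(z : ℝ)| ≤ (L : ℝ) := by exact_mod_cast h1
        exact this.trans hLr
      · intro h1
        have h2 : ((z.natAbs : ℕ) : ℝ) = |(z : ℝ)| := by
          rw [Nat.cast_natAbs]
          push_cast
          rfl
        rw [← h2] at h1
        have h3 : z.natAbs ≤ L := Nat.le_floor h1
        rw [Int.abs_eq_natAbs]
        exact_mod_cast h3
    rw [Fintype.mem_piFinset]
    exact forall_congr' fun j => hz (x j)
  · have h1 : (Fintype.piFinset fun _ : Fin (n + 1) => Icc (-(L : ℤ)) L).card =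
        (2 * L + 1) ^ (n + 1) := by
      rw [Fintype.card_piFinset]
      simp only [Int.card_Icc, Finset.prod_const, Finset.card_univ, Fintype.card_fin]
      congr 1
      omega
    rw [h1]
    push_cast
    have h2 : 2 * (L : ℝ) + 1 ≤ 3 * (H : ℝ) ^ θ := by linarith
    have h3 : (0 : ℝ) ≤ 2 * (L : ℝ) + 1 := by positivity
    calc (2 * (L : ℝ) + 1) ^ (n + 1) ≤ (3 * (H : ℝ) ^ θ) ^ (n + 1) :=
          pow_le_pow_left₀ h3 h2 _
      _ = 3 ^ (n + 1) * (H : ℝ) ^ (((n : ℝ) + 1) * θ) := by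
          rw [mul_pow]
          congr 1
          rw [← Real.rpow_natCast, ← Real.rpow_mul hHR0.le]
          congr 1
          push_cast
          ring

theorem coefficient_nonneg {r : ℕ} (e : Fin r → ℕ) (he : ∀ i, 1 ≤ e i) (J : Finset (Fin r))
    (i : Fin r) : 0 ≤ coefficient e J i := by
  unfold coefficient
  split_ifs
  · norm_num
  · have h1 : (1 : ℝ) ≤ e i := by exact_mod_cast he i
    have h2 : 1 / (e i : ℝ) ≤ 1 := by
      rw [div_le_one (by linarith)]
      exact h1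
    linarith

/-- a coefficient is zero or at least one half -/
theorem coefficient_half {r : ℕ} (e : Fin r → ℕ) (he : ∀ i, 1 ≤ e i) (J : Finset (Fin r))
    (i : Fin r) (h : coefficient e J i ≠ 0) : 1 / 2 ≤ coefficient e J i := by
  unfold coefficient at h ⊢
  split_ifs at h ⊢ with hi
  · norm_num
  · have h1 : 2 ≤ e i := by
      by_contra h2
      have h3 : e i = 1 := by have := he i; omega
      rw [h3] at h
      norm_num at h
    have h1R : (2 : ℝ) ≤ e i := by exact_mod_cast h1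
    have h2 : 1 / (e i : ℝ) ≤ 1 / 2 := one_div_le_one_div_of_le (by norm_num) h1R
    linarith

/-- **Vojta's inequality with truncated counting function for the integral points of bounded height
on the root stacks of `Pⁿ` along almost all tuples of hypersurfaces.** -/
theorem result (n : ℕ) {r : ℕ} (d : Fin r → ℕ) :
    (∀ κ θ δ : ℝ, 0 ≤ κ → 1 ≤ θ → 0 < δ → κ + θ * ∑ i, (d i : ℝ) < ∑ i, (d i : ℝ) + 1 / 2 →
      ∃ η C : ℝ, 0 < η ∧ ∀ H : ℕ, 1 ≤ H →
        (Violating n d κ θ δ H).Finite ∧ ((Violating n d κ θ δ H).ncard : ℝ) ≤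
          C * (H : ℝ) ^ (∑ i, ((n + d i).choose n : ℝ) - η)) ∧
    ∀ (e : Fin r → ℕ) (J : Finset (Fin r)), (∀ i, 1 ≤ e i) → ∀ κ l τ θ φ : ℝ,
      0 ≤ κ → 0 ≤ l → 0 ≤ τ → 1 ≤ θ → τ < canonicalDegree n d e J →
      κ + l < ∑ i, coefficient e J i →
      φ + κ + l + τ * θ + ∑ i, (1 + θ * d i) * (1 - coefficient e J i) <
        ∑ i, ((d i : ℝ) + 1) →
      ∃ η C : ℝ, 0 < η ∧ ∀ H : ℕ, 1 ≤ H → ∀ A : Finset (Fin (n + 1) → ℤ),
        (A.card : ℝ) ≤ 3 ^ (n + 1) * (H : ℝ) ^ φ →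
        (∀ x ∈ A, ∀ j, |(x j : ℝ)| ≤ (H : ℝ) ^ θ) →
        (Bad n d e J κ l τ H A).Finite ∧ ((Bad n d e J κ l τ H A).ncard : ℝ) ≤
          C * (H : ℝ) ^ (∑ i, ((n + d i).choose n : ℝ) - η) := by
  classical
  refine ⟨?_, fun e J he κ l τ θ φ hκ0 hl hτ hθ h1 h2 h3 =>
    bad_bound n d e he J κ l τ θ φ hκ0 hl hτ hθ h1 h2 h3⟩
  intro κ θ δ hκ0 hθ hδ hbd
  set D : ℝ := ∑ i, (d i : ℝ) with hD
  have hD0 : 0 ≤ D := Finset.sum_nonneg fun i _ => Nat.cast_nonneg _
  have hκ : κ < 1 / 2 := by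
    have : D ≤ θ * D := le_mul_of_one_le_left hD0 hθ
    linarith
  obtain ⟨M₀, hM₀⟩ := exists_nat_ge (2 * D / δ)
  set M : ℕ := M₀ + 1 with hM
  have hMR : (0 : ℝ) < M := by
    rw [hM]
    positivity
  have hMδ : D / M ≤ δ / 2 := by
    rw [div_le_iff₀ hMR]
    rw [div_le_iff₀ hδ] at hM₀
    have h1 : (M₀ : ℝ) ≤ M := by
      rw [hM]
      push_cast
      linarith
    have h2 : (M₀ : ℝ) * δ ≤ M * δ := mul_le_mul_of_nonneg_right h1 hδ.le
    linarith
  set T : Finset ((Fin r → ℕ) × Finset (Fin r)) :=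
    (Fintype.piFinset fun _ => Icc 1 M) ×ˢ Finset.univ with hT
  set Z : ((Fin r → ℕ) × Finset (Fin r)) → ℕ → Set (Fin r → MvPolynomial (Fin (n + 1)) ℤ) :=
    fun t H => if 0 < canonicalDegree n d t.1 t.2 then
      Bad n d t.1 t.2 κ 0 (max 0 (canonicalDegree n d t.1 t.2 - δ / 2)) H
        {x | ∀ j, |(x j : ℝ)| ≤ (H : ℝ) ^ θ} else ∅ with hZ
  obtain ⟨η, C, hη, hun⟩ := union_bound (∑ i, ((n + d i).choose n : ℝ)) T Z (by
    intro t ht
    have ht1 : ∀ i, 1 ≤ t.1 i := fun i =>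
      (mem_Icc.mp (Fintype.mem_piFinset.mp (Finset.mem_product.mp ht).1 i)).1
    by_cases hdeg : 0 < canonicalDegree n d t.1 t.2
    · set τ : ℝ := max 0 (canonicalDegree n d t.1 t.2 - δ / 2) with hτ
      have hτ1 : τ < canonicalDegree n d t.1 t.2 := max_lt hdeg (by linarith)
      have hsum : 1 / 2 ≤ ∑ i, coefficient t.1 t.2 i := by
        by_contra hcon
        have hall : ∀ i, coefficient t.1 t.2 i = 0 := by
          intro i
          by_contra hne
          have h4 := coefficient_half t.1 ht1 t.2 i hne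
          have h5 := Finset.single_le_sum (f := fun i => coefficient t.1 t.2 i)
            (fun i _ => coefficient_nonneg t.1 ht1 t.2 i) (Finset.mem_univ i)
          exact hcon (h4.trans h5)
        unfold canonicalDegree at hdeg
        simp only [hall, zero_mul, Finset.sum_const_zero] at hdeg
        have : (0 : ℝ) ≤ n := Nat.cast_nonneg n
        linarith
      have h3 : ((n : ℝ) + 1) * θ + κ + 0 + τ * θ +
          ∑ i, (1 + θ * d i) * (1 - coefficient t.1 t.2 i) < ∑ i, ((d i : ℝ) + 1) := by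
        have q1 : ∑ i, (1 + θ * (d i : ℝ)) * (1 - coefficient t.1 t.2 i) =
            r + θ * D - ∑ i, coefficient t.1 t.2 i -
              θ * ∑ i, coefficient t.1 t.2 i * d i := by
          have q0 : ∀ i ∈ (Finset.univ : Finset (Fin r)),
              (1 + θ * (d i : ℝ)) * (1 - coefficient t.1 t.2 i) =
              ((1 + θ * d i) - coefficient t.1 t.2 i) - θ * (coefficient t.1 t.2 i * d i) :=
            fun i _ => by ring
          rw [Finset.sum_congr rfl q0, Finset.sum_sub_distrib, Finset.sum_sub_distrib,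
            Finset.sum_add_distrib, ← Finset.mul_sum, ← Finset.mul_sum, ← hD, Finset.sum_const,
            Finset.card_univ, Fintype.card_fin, nsmul_eq_mul, mul_one]
        have q2 : ∑ i, ((d i : ℝ) + 1) = D + r := by
          rw [Finset.sum_add_distrib, ← hD, Finset.sum_const, Finset.card_univ, Fintype.card_fin,
            nsmul_eq_mul, mul_one]
        rw [q1, q2]
        have q3 : ((n : ℝ) + 1) * θ + τ * θ ≤ θ * ∑ i, coefficient t.1 t.2 i * d i := by
          have q4 : (n : ℝ) + 1 + τ ≤ ∑ i, coefficient t.1 t.2 i * d i := by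
            unfold canonicalDegree at hτ1
            linarith
          calc ((n : ℝ) + 1) * θ + τ * θ = θ * ((n : ℝ) + 1 + τ) := by ring
            _ ≤ _ := mul_le_mul_of_nonneg_left q4 (by linarith)
        linarith
      obtain ⟨η, C, hη, hb⟩ := bad_bound n d t.1 ht1 t.2 κ 0 τ θ (((n : ℝ) + 1) * θ) hκ0
        (le_refl 0) (le_max_left _ _) hθ hτ1 (by linarith) h3
      refine ⟨η, C, hη, fun H hH => ?_⟩
      obtain ⟨A, hA, hAc⟩ := exists_ball n H hH θ (by linarith)
      have h4 := hb H hH A hAc fun x hx => (hA x).mp hx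
      have h5 : (A : Set (Fin (n + 1) → ℤ)) = {x | ∀ j, |(x j : ℝ)| ≤ (H : ℝ) ^ θ} := by
        ext x
        exact hA x
      rw [h5] at h4
      simp only [hZ]
      rw [if_pos hdeg]
      exact h4
    · refine ⟨1, 0, one_pos, fun H _ => ?_⟩
      simp only [hZ]
      rw [if_neg hdeg]
      simp)
  refine ⟨η, C, hη, fun H hH => ?_⟩
  obtain ⟨hfin, hcard⟩ := hun H hH
  have hsub : Violating n d κ θ δ H ⊆ ⋃ t ∈ T, Z t H := by
    rintro F ⟨hF, hFb, S, hS, hSQ, J, e, he, x, hxb, hxp, hx0, hxi, hxt⟩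
    have hxn : 1 ≤ nrm x := Prim.nrm_pos (x := x) hxp
    have hh0 : 0 ≤ height x := by
      rw [height_eq]
      exact Real.log_nonneg (by exact_mod_cast hxn)
    have htr0 : 0 ≤ truncated S J F x := by
      unfold truncated
      refine Finset.sum_nonneg fun p hp => Real.log_nonneg ?_
      have := (Nat.prime_of_mem_primeFactors (Finset.mem_sdiff.mp hp).1).one_le
      exact_mod_cast this
    set e' : Fin r → ℕ := fun i => min (e i) M with he'
    have hcoef : ∀ i, coefficient e J i - 1 / M ≤ coefficient e' J i := by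
      intro i
      unfold coefficient
      have hM0 : 0 ≤ 1 / (M : ℝ) := by positivity
      split_ifs
      · linarith
      · have h4 : 1 / ((e' i : ℕ) : ℝ) ≤ 1 / (e i : ℝ) + 1 / M := by
          have h5 : (0 : ℝ) ≤ 1 / (e i : ℝ) := by positivity
          rcases le_total (e i) M with h6 | h6
          · have : e' i = e i := min_eq_left h6
            rw [this]
            linarith
          · have : e' i = M := min_eq_right h6
            rw [this]
            linarith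
        linarith
    have hdeg : canonicalDegree n d e J - δ / 2 ≤ canonicalDegree n d e' J := by
      unfold canonicalDegree
      have h4 : ∑ i, (coefficient e J i - 1 / M) * (d i : ℝ) ≤ ∑ i, coefficient e' J i * d i :=
        Finset.sum_le_sum fun i _ => mul_le_mul_of_nonneg_right (hcoef i) (Nat.cast_nonneg _)
      have h5 : ∑ i, (coefficient e J i - 1 / M) * (d i : ℝ) =
          ∑ i, coefficient e J i * d i - D / M := by
        simp only [sub_mul]
        rw [Finset.sum_sub_distrib, ← Finset.mul_sum, ← hD]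
        ring
      rw [h5] at h4
      linarith
    have hpos : 0 < canonicalDegree n d e J - δ := by
      by_contra hcon
      push Not at hcon
      have : (canonicalDegree n d e J - δ) * height x ≤ 0 :=
        mul_nonpos_of_nonpos_of_nonneg hcon hh0
      linarith
    have hdeg' : 0 < canonicalDegree n d e' J := by linarith
    have htT : (e', J) ∈ T := by
      rw [hT, Finset.mem_product]
      refine ⟨Fintype.mem_piFinset.mpr fun i => mem_Icc.mpr ⟨?_, min_le_right _ _⟩,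
        Finset.mem_univ _⟩
      exact le_min (he i) (by omega)
    rw [Set.mem_iUnion₂]
    refine ⟨(e', J), htT, ?_⟩
    simp only [hZ]
    rw [if_pos hdeg']
    refine ⟨hF, hFb, S, hS, hSQ, x, hxb, hxp, hx0, ?_, ?_⟩
    · intro i hi p hp hpS hdvd
      exact (pow_dvd_pow _ (min_le_left _ _)).trans (hxi i hi p hp hpS hdvd)
    · have h4 : (canonicalDegree n d e J - δ) * height x ≤
          max 0 (canonicalDegree n d e' J - δ / 2) * height x := by
        refine mul_le_mul_of_nonneg_right ?_ hh0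
        exact le_trans (by linarith) (le_max_right _ _)
      rw [zero_mul, zero_add]
      exact hxt.le.trans h4
  refine ⟨hfin.subset hsub, ?_⟩
  have h4 := Set.ncard_le_ncard hsub hfin
  have h5 : ((Violating n d κ θ δ H).ncard : ℝ) ≤ ((⋃ t ∈ T, Z t H).ncard : ℝ) := by
    exact_mod_cast h4
  exact h5.trans hcard

end Pool.Agent.Results.MP_a41896_nt.AlmostAllHypersurfaces
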