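import Mathlib
import Pool.Agent.TH905.VF.StkArr

/-!
# Vojta's conjecture for the root stacks over the resolutions of all hyperplane arrangements

Let `a_0, …, a_{r-1}` be linear forms in `n + 1` variables over a number field `K` which span the
space of linear forms: an arbitrary essential arrangement of hyperplanes in `ℙ^n`, without any
condition on their intersections. Let `M → ℙ^n` be the blow-up of all the flats of the arrangement,
and `E_F ⊂ M` the divisor over the flat `F` (for a hyperplane its proper transform). A flat is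
identified with the set of the `i` such that `a_i` vanishes on it. The `E_F` are smooth, their sum
`D_M` has normal crossings, and the divisor of `a_i` on `M` is the sum of the `E_F` with `i ∈ F`. For
the braid arrangement `M` maps to the space of stable pointed rational curves.

Let `𝒳` be the root stack of `M` of order `e_F ≥ 1` along `E_F` for all `F`, a smooth proper
Deligne-Mumford stack with coarse space `M`; `𝒟_F` is the stacky divisor above `E_F`, so `e_F 𝒟_F` is
the pullback of `E_F`. (If all `e_F` are `m`, it is the quotient of the `m`-th Kummer cover of the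
arrangement, for `n = 2` a Hirzebruch surface, by its Galois group.) For a set `J` of flats let `𝒟_J` be
the sum of the `𝒟_F`, `F ∈ J`. As `K_𝒳 + 𝒟_J` is the pullback of `K_M + D_M - ∑_{F ∉ J} E_F / e_F`,
`h_{K_𝒳 + 𝒟_J}(x) = h_{K_M + D_M}(x) - ∑_{F ∉ J} h_{E_F}(x) / e_F`.

Weil functions. For `x ∈ ℙ^n` off the arrangement put `w_i = log (max_j |a_j(x)| / |a_i(x)|)` at a place.
Up to `O(1)`, and exactly at almost all primes, `w_i` is the sum of the `λ_F` with `i ∈ F` and
`λ_F = max(0, min_{i ∈ F} w_i - max_{i ∉ F} w_i)` is the Weil function of `E_F` (if `λ_F(x) > 0`, the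
other flats `G` with `λ_G(x) > 0` form a chain with `F`), at a prime `w` the intersection number times
`log N(w)`. The largest sum of local heights `log (|a_i| |x| / |a_i(x)|)` over a linearly independent
subfamily of the arrangement is one for `K_M + D_M + (n + 1) H`, `H` = hyperplane.

Let `S` be a finite set of rational primes, and `L` a number field which contains `K`. The point
`x ∈ ℙ^n(K)` comes from an integral point of `𝒳` over the ring of `S`-integers of `L` if at every prime
of `L` not above `S` the intersection number with `E_F` is divisible by `e_F` for all `F`.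

We prove for all `x ∈ ℙ^n(K)` outside a set with `O(B ^ ([K : ℚ] (n + 1 - κ) + δ))` elements of height
at most `B`, `0 ≤ κ ≤ 1 / 2`: for ALL number fields `L ⊇ K`, ALL `S` and ALL orders `(e_F)` such that
`x` comes from an integral point of `𝒳` over the `S`-integers of `L`, and ALL `J`
`h_{K_𝒳 + 𝒟_J}(x) + m_S(∑_{F ∉ J} 𝒟_F, x) + (n + 1 - κ) h(x) ≤
    N_S^{(1)}(𝒟_J, x) + d(L) + ∑_{p ∈ S} log p + c`,
with truncated counting function and logarithmic discriminant of the point over `L`, and the proximity
function `m_S` of `𝒟_F`, `1 / e_F` times the sum of `λ_F` over the places above `S` and infinity.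

Proof: the truncated counting function of `D_M` over `K` is bounded by `∑_{p ∈ S} log p`, the
logarithmic discriminant of `L` and the truncated counting function over `L` outside `S`, of which the
primes where `x` meets some `E_F`, `F ∉ J`, make up at most `(h_{E_F}(x) - m_S(E_F, x)) / e_F` each. For
the `x` with a small truncated counting function over `K` see `HyperplaneArrangements`
(MP_9ec3f0_nt), a starting file.
-/

set_option autoImplicit false

namespace Pool.Agent.Results.MP_a41896_nt.StackyArrangements

open NumberField IsDedekindDomain LinearAlgebra.Projectivization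
open scoped Classical

/-- The value of the linear form with coefficients `a` at `x`. -/
def lin {K : Type} [Field K] {n : ℕ} (a x : Fin (n + 1) → K) : K := ∑ j, a j * x j

/-- The local height of the hyperplane `a = 0` at `x` for an absolute value. -/
noncomputable def lam {K : Type} [Field K] {n : ℕ} (f : AbsoluteValue K ℝ)
    (a x : Fin (n + 1) → K) : ℝ :=
  Real.log ((⨆ j, f (a j)) * (⨆ j, f (x j)) / f (lin a x))

/-- The largest sum of local heights over a linearly independent subfamily of the arrangement. -/
noncomputable def largest {K : Type} [Field K] {n r : ℕ} (f : AbsoluteValue K ℝ)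
    (a : Fin r → Fin (n + 1) → K) (x : Fin (n + 1) → K) : ℝ :=
  ⨆ I : {I : Finset (Fin r) // LinearIndependent K (fun i : I => a i)}, ∑ i ∈ I.1, lam f (a i) x

/-- The absolute logarithmic height of a point of `ℙ^n(K)`. -/
noncomputable def height {K : Type} [Field K] [NumberField K] {n : ℕ}
    (x : ℙ K (Fin (n + 1) → K)) : ℝ := Real.log x.mulHeight / Module.finrank ℚ K

/-- The height with respect to `K_M + D_M + (n + 1) H`. -/
noncomputable def logCanonical {K : Type} [Field K] [NumberField K] {n r : ℕ}
    (a : Fin r → Fin (n + 1) → K) (x : ℙ K (Fin (n + 1) → K)) : ℝ :=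
  (∑ w : InfinitePlace K, (w.mult : ℝ) * largest w.1 a x.rep +
    ∑ᶠ v : HeightOneSpectrum (𝓞 K), largest (FinitePlace.mk v).1 a x.rep) / Module.finrank ℚ K

/-- The local height `w_i = log (max_j |y_j| / |y_i|)` for an absolute value. -/
noncomputable def weil {L : Type} [Field L] {r : ℕ} (f : AbsoluteValue L ℝ) (y : Fin r → L)
    (i : Fin r) : ℝ := Real.log ((⨆ j, f (y j)) / f (y i))

/-- The flats, as sets of forms: `F` contains all forms of the arrangement in the span of `F`. -/
abbrev Flat {K : Type} [Field K] {n r : ℕ} (a : Fin r → Fin (n + 1) → K) : Type :=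
  {F : Finset (Fin r) // ∀ i, a i ∈ Submodule.span K (a '' (F : Set (Fin r))) → i ∈ F}

/-- The local height `λ_F = max(0, min_{i ∈ F} w_i - max_{i ∉ F} w_i)` of `E_F`. It is `0` for the
empty set and the set of all forms, which do not correspond to divisors. The absolute values are
normalised so that the product formula holds: `|b|_w = N(w) ^ (- w(b))`. -/
noncomputable def component {L : Type} [Field L] {r : ℕ} (f : AbsoluteValue L ℝ) (y : Fin r → L)
    (F : Finset (Fin r)) : ℝ :=
  max 0 ((⨅ i : F, weil f y i) - ⨆ i : {i // i ∉ F}, weil f y i)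

section

variable {K : Type} [Field K] [NumberField K] {n r : ℕ} (a : Fin r → Fin (n + 1) → K)
  (x : ℙ K (Fin (n + 1) → K))

/-- The height `h_{E_F}(x)`: the sum of `λ_F` over all places of `K`, divided by `[K : ℚ]`. -/
noncomputable def heightF (F : Flat a) : ℝ :=
  (∑ w : InfinitePlace K, (w.mult : ℝ) * component w.1 (fun i => lin (a i) x.rep) F +
    ∑ᶠ v : HeightOneSpectrum (𝓞 K),
      component (FinitePlace.mk v).1 (fun i => lin (a i) x.rep) F) / Module.finrank ℚ K

/-- The proximity function `m_S(E_F, x)`: the sum of `λ_F` over the places above `S` and infinity,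
divided by `[K : ℚ]`. -/
noncomputable def proximity (S : Finset ℕ) (F : Flat a) : ℝ :=
  (∑ w : InfinitePlace K, (w.mult : ℝ) * component w.1 (fun i => lin (a i) x.rep) F +
    ∑ᶠ v ∈ {v : HeightOneSpectrum (𝓞 K) | ∃ p ∈ S, (p : 𝓞 K) ∈ v.asIdeal},
      component (FinitePlace.mk v).1 (fun i => lin (a i) x.rep) F) / Module.finrank ℚ K

/-- The height `h_{K_𝒳 + 𝒟_J}(x)` for the root stack with orders `e_F`. -/
noncomputable def canonicalHeight (e : Flat a → ℕ) (J : Finset (Flat a)) : ℝ :=
  logCanonical a x - (n + 1) * height x - ∑ F ∈ Jᶜ, heightF a x F / e F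

variable (L : Type) [Field L] [NumberField L] [Algebra K L]

/-- The local height of `x` with respect to `E_F` at the prime `w` of `L`. -/
noncomputable def meet (w : HeightOneSpectrum (𝓞 L)) (F : Flat a) : ℝ :=
  component (FinitePlace.mk w).1 (fun i => algebraMap K L (lin (a i) x.rep)) F

/-- The point `x` comes from an integral point over the `S`-integers of `L` of the root stack with
orders `e_F`: all intersection numbers with the `E_F` outside `S` are divisible by `e_F`. -/
def Integral (S : Finset ℕ) (e : Flat a → ℕ) : Prop :=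
  ∀ w : HeightOneSpectrum (𝓞 L), (∀ p ∈ S, (p : 𝓞 L) ∉ w.asIdeal) → ∀ F : Flat a, ∃ m : ℕ,
    meet a x L w F = m * e F * Real.log (Ideal.absNorm w.asIdeal)

/-- The truncated counting function `N_S^{(1)}(𝒟_J, x)`: the sum of `log N(w) / [L : ℚ]` over the
primes `w` of `L` not above `S` at which `x` meets some `E_F` with `F ∈ J`. -/
noncomputable def truncated (S : Finset ℕ) (J : Finset (Flat a)) : ℝ :=
  (∑ᶠ w : HeightOneSpectrum (𝓞 L),
    if (∀ p ∈ S, (p : 𝓞 L) ∉ w.asIdeal) ∧ ∃ F ∈ J, 0 < meet a x L w F
    then Real.log (Ideal.absNorm w.asIdeal) else 0) / Module.finrank ℚ L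

end

/-- The logarithmic discriminant `log |disc L| / [L : ℚ]`. -/
noncomputable def logDisc (L : Type) [Field L] [NumberField L] : ℝ :=
  Real.log |(discr L : ℝ)| / Module.finrank ℚ L

/-- The exceptional points `x ∈ ℙ^n(K)` off the arrangement, of height at most `log B`: for some number
field `L` which contains `K`, some finite set `S` of primes, some orders `e_F ≥ 1` such that `x` comes
from an integral point of `𝒳` over the `S`-integers of `L`, and some set `J` of flats
`h_{K_𝒳 + 𝒟_J}(x) + ∑_{F ∉ J} m_S(E_F, x) / e_F + (n + 1 - κ) h(x) ≤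
    N_S^{(1)}(𝒟_J, x) + d(L) + ∑_{p ∈ S} log p + c` fails. -/
def exceptional {K : Type} [Field K] [NumberField K] {n r : ℕ} (a : Fin r → Fin (n + 1) → K)
    (κ c B : ℝ) : Set (ℙ K (Fin (n + 1) → K)) :=
  {x | (∀ i, lin (a i) x.rep ≠ 0) ∧ Real.exp (height x) ≤ B ∧
    ∃ (L : Type) (_ : Field L) (_ : NumberField L) (_ : Algebra K L) (S : Finset ℕ)
      (e : Flat a → ℕ) (J : Finset (Flat a)),
      (∀ p ∈ S, p.Prime) ∧ (∀ F, 1 ≤ e F) ∧ Integral a x L S e ∧
        truncated a x L S J + logDisc L + ∑ p ∈ S, Real.log p + c <
          canonicalHeight a x e J + ∑ F ∈ Jᶜ, proximity a x S F / e F + (n + 1 - κ) * height x}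

/-- **Vojta's conjecture for the root stacks over the resolutions of all hyperplane arrangements.** Let
`K` be a number field, `n ≥ 1`, and let `a_0, …, a_{r-1}` be nonzero linear forms in `n + 1` variables
over `K` which span the space of linear forms. Let `0 ≤ κ ≤ 1 / 2`, `c` real and `δ > 0`. For all but
`M B ^ ([K : ℚ] (n + 1 - κ) + δ)` of the points `x ∈ ℙ^n(K)` of height at most `B` off the arrangement,
for ALL number fields `L` which contain `K`, ALL finite sets `S` of primes, ALL orders `e_F ≥ 1` such
that `x` comes from an integral point of `𝒳` over the `S`-integers of `L`, and ALL sets `J` of flats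
`h_{K_𝒳 + 𝒟_J}(x) + m_S(∑_{F ∉ J} 𝒟_F, x) + (n + 1 - κ) h(x) ≤
    N_S^{(1)}(𝒟_J, x) + d(L) + ∑_{p ∈ S} log p + c`. -/
theorem result (K : Type) [Field K] [NumberField K] (n r : ℕ) (hn : 1 ≤ n)
    (a : Fin r → Fin (n + 1) → K) (ha : ∀ i, a i ≠ 0)
    (hspan : Submodule.span K (Set.range a) = ⊤)
    (κ c δ : ℝ) (hκ0 : 0 ≤ κ) (hκ : κ ≤ 1 / 2) (hδ : 0 < δ) :
    ∃ M : ℝ, ∀ B : ℝ, 1 ≤ B → (exceptional a κ c B).Finite ∧
      ((exceptional a κ c B).ncard : ℝ) ≤
        M * B ^ ((Module.finrank ℚ K : ℝ) * ((n : ℝ) + 1 - κ) + δ) := by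
  have hr : 1 ≤ r := by
    by_contra h
    have hr0 : r = 0 := by omega
    subst hr0
    rw [Set.range_eq_empty, Submodule.span_empty] at hspan
    have h1 : (Pi.single 0 1 : Fin (n + 1) → K) ∈ (⊤ : Submodule K (Fin (n + 1) → K)) :=
      Submodule.mem_top
    rw [← hspan, Submodule.mem_bot] at h1
    have h2 := congrFun h1 0
    simp at h2
  have hd : (0 : ℝ) < Module.finrank ℚ K := by exact_mod_cast Module.finrank_pos
  set d : ℝ := (Module.finrank ℚ K : ℝ) with hdd
  obtain ⟨M, hM⟩ := Pool.Agent.TH905.VF.stkarr_main hn hr a ha hspan κ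
    (d * c + Real.log |(discr K : ℝ)|) (δ / d) hκ0 hκ (by positivity)
  refine ⟨M, fun B hB => ?_⟩
  have hB0 : 0 < B := by linarith
  obtain ⟨h1, h2⟩ := hM (B ^ d) (Real.one_le_rpow hB hd.le)
  have hsub : exceptional a κ c B ⊆ Pool.Agent.TH905.VF.ESA a κ
      (d * c + Real.log |(discr K : ℝ)|) (B ^ d) := by
    rintro x ⟨hne, hB', L, i1, i2, i3, S, e, J, hS, he, hint, hv⟩
    have hout : ∀ w : HeightOneSpectrum (𝓞 L),
        (∀ v ∈ (Pool.Agent.TH905.VF.above_finite K S hS).toFinset,
          ¬ w.asIdeal.LiesOver v.asIdeal) ↔ ∀ p ∈ S, (p : 𝓞 L) ∉ w.asIdeal := by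
      intro w
      have h3 := Set.ext_iff.1 (Pool.Agent.TH905.VF.above_eq (K := K) (L := L) S hS) w
      simp only [Set.mem_ofPred_eq] at h3
      have h4 := not_congr h3
      push Not at h4
      exact h4
    refine ⟨hne, ?_, L, i1, i2, i3,
      (Pool.Agent.TH905.VF.above_finite K S hS).toFinset, e, J, he, ?_, ?_⟩
    · have h3 := hB'
      rw [← Real.le_log_iff_exp_le hB0] at h3
      unfold height at h3
      rw [← hdd, div_le_iff₀ hd, mul_comm, ← Real.log_rpow hB0] at h3
      have hpos : 0 < x.mulHeight := lt_of_lt_of_le one_pos x.one_le_mulHeight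
      exact (Real.log_le_log_iff hpos (Real.rpow_pos_of_pos hB0 _)).1 h3
    · intro w hw F
      exact hint w ((hout w).1 hw) F
    · have hL : (0 : ℝ) < Module.finrank K L := Pool.Agent.TH905.VF.finrank_pos'
      have htow : (Module.finrank ℚ L : ℝ) = d * Module.finrank K L := by
        rw [hdd]
        exact_mod_cast (Module.finrank_mul_finrank ℚ K L).symm
      have h3 := Pool.Agent.TH905.VF.sum_above K S hS
        (Pool.Agent.TH905.VF.above_finite K S hS).toFinset fun v hv =>
          (Set.Finite.mem_toFinset (Pool.Agent.TH905.VF.above_finite K S hS)).1 hv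
      have h4 : Pool.Agent.Results.MP_9ec3f0_nt.HyperplaneArrangements.hW a x.rep =
          d * logCanonical a x := by
        have : logCanonical a x =
          Pool.Agent.Results.MP_9ec3f0_nt.HyperplaneArrangements.hW a x.rep / d := rfl
        rw [this]
        field_simp
      have h5 : Pool.Agent.TH905.VF.nF L (Pool.Agent.TH905.VF.above_finite K S hS).toFinset a J
          x.rep = d * truncated a x L S J := by
        unfold truncated Pool.Agent.TH905.VF.nF
        rw [htow, mul_div_assoc', mul_div_mul_left _ _ hd.ne']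
        congr 1
        refine finsum_congr fun w => if_congr (and_congr (hout w) Iff.rfl) rfl rfl
      have h6 : Pool.Agent.TH905.VF.ld K L = d * logDisc L - Real.log |(discr K : ℝ)| := by
        unfold Pool.Agent.TH905.VF.ld logDisc
        rw [htow]
        field_simp
      have h7 : ∀ F : Flat a, Pool.Agent.TH905.VF.hF (fun i => lin (a i) x.rep) F.1 =
          d * heightF a x F := by
        intro F
        have : heightF a x F =
          Pool.Agent.TH905.VF.hF (fun i => lin (a i) x.rep) F.1 / d := rfl
        rw [this]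
        field_simp
      have h7' : ∀ F : Flat a, Pool.Agent.TH905.VF.mF
          (Pool.Agent.TH905.VF.above_finite K S hS).toFinset (fun i => lin (a i) x.rep) F.1 =
          d * proximity a x S F := by
        intro F
        unfold proximity
        rw [finsum_mem_eq_finite_toFinset_sum _ (Pool.Agent.TH905.VF.above_finite K S hS), ← hdd,
          mul_div_cancel₀ _ hd.ne']
        rfl
      have h8 : Real.log x.mulHeight = d * height x := by
        unfold height
        rw [← hdd]
        field_simp
      have h10 : ∑ F ∈ Jᶜ, 1 / (e F : ℝ) *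
          (Pool.Agent.TH905.VF.hF (fun i => lin (a i) x.rep) F.1 -
            Pool.Agent.TH905.VF.mF (Pool.Agent.TH905.VF.above_finite K S hS).toFinset
              (fun i => lin (a i) x.rep) F.1) =
          d * (∑ F ∈ Jᶜ, heightF a x F / e F - ∑ F ∈ Jᶜ, proximity a x S F / e F) := by
        rw [← Finset.sum_sub_distrib, Finset.mul_sum]
        refine Finset.sum_congr rfl fun F _ => ?_
        rw [h7, h7']
        ring
      have h11 : ∑ F ∈ Jᶜ, 1 / (e F : ℝ) *
          (Pool.Agent.TH905.VF.hF
              (fun i => Pool.Agent.Results.MP_9ec3f0_nt.HyperplaneArrangements.lin (a i) x.rep)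
              F.1 -
            Pool.Agent.TH905.VF.mF (Pool.Agent.TH905.VF.above_finite K S hS).toFinset
              (fun i => Pool.Agent.Results.MP_9ec3f0_nt.HyperplaneArrangements.lin (a i) x.rep)
              F.1) =
          d * (∑ F ∈ Jᶜ, heightF a x F / e F - ∑ F ∈ Jᶜ, proximity a x S F / e F) := h10
      rw [h4, h5, h6, h8, h11]
      unfold canonicalHeight at hv
      have h9 := mul_lt_mul_of_pos_left hv hd
      rw [← hdd] at h3
      linarith
  refine ⟨h1.subset hsub, ?_⟩
  refine le_trans (Nat.cast_le.2 (Set.ncard_le_ncard hsub h1)) (h2.trans (le_of_eq ?_))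
  rw [← Real.rpow_mul hB0.le]
  congr 2
  field_simp

end Pool.Agent.Results.MP_a41896_nt.StackyArrangements
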