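import Mathlib
import Pool.Agent.TH876.NP.Def
import Pool.Agent.TH876.NP.Def2
import Pool.Agent.TH876.NP.Classes
import Pool.Agent.TH876.NP.Roots
import Pool.Agent.TH876.NP.Gap
import Pool.Agent.TH876.NP.Choose
import Pool.Agent.TH876.NP.Scale
import Pool.Agent.TH876.NP.Core
import Pool.Agent.TH876.NP.Two
import Pool.Agent.TH876.NP.Stacky

/-!
# Integral points of the line with a stacky point, of any height

`K` is a number field, `S` a finite set of primes and `m ≥ 2`. Let `𝒳` be the root stack of order
`m` at `1` over the projective line and `𝒟 = 0 + ∞`, so that `K_𝒳 + 𝒟` has degree `1 - 1 / m`. An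
integral point of `𝒳` over the `S`-integers, not one of the points `0`, `1`, `∞`, is a point `x` of
the line over `K` whose intersection number with `1` at every prime outside `S` is divisible by `m`.
We count the integral points `x` with reduced counting function `N^(1)(𝒟, x) ≤ log X`; their heights
may be much larger than every power of `X`.
-/

set_option autoImplicit false

namespace Pool.Agent.Results.MP_a41896_nt.StackyLineAllHeights

open NumberField IsDedekindDomain

/-- `x` is an integral point of the line with a stacky point of order `m` at `1`: at every prime `v`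
outside `S` the intersection number `t` of `x` and `1`, given by
`|x - 1|_v = max(|x|_v, 1) exp(- t)` (normalised valuation), is a multiple of `m`. -/
def IsIntegralPoint {K : Type} [Field K] [NumberField K] (S : Set (HeightOneSpectrum (𝓞 K)))
    (m : ℕ) (x : K) : Prop :=
  ∀ v : HeightOneSpectrum (𝓞 K), v ∉ S → ∃ a : ℕ, v.valuation K (x - 1) =
    max (v.valuation K x) 1 * WithZero.exp (-((m * a : ℕ) : ℤ))

/-- The reduced counting function `N^(1)(𝒟, x)` of `𝒟 = 0 + ∞`: the sum of `log N(v)` over the
primes `v` outside `S` with `|x|_v ≠ 1`. -/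
noncomputable def truncated {K : Type} [Field K] [NumberField K]
    (S : Set (HeightOneSpectrum (𝓞 K))) (x : K) : ℝ :=
  ∑ᶠ v ∈ {v : HeightOneSpectrum (𝓞 K) | v ∉ S ∧ v.valuation K x ≠ 1},
    Real.log (Ideal.absNorm v.asIdeal : ℝ)

/-- The integral points `x ≠ 0, 1` with `N^(1)(𝒟, x) ≤ log X` and height at most `H` which meet
`𝒟` only at primes of norm at most `y`. -/
def Points {K : Type} [Field K] [NumberField K] (S : Set (HeightOneSpectrum (𝓞 K))) (m : ℕ)
    (X y H : ℝ) : Set K :=
  {x | x ≠ 0 ∧ x ≠ 1 ∧ IsIntegralPoint S m x ∧ Real.exp (truncated S x) ≤ X ∧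
    (∀ v : HeightOneSpectrum (𝓞 K), v ∉ S → v.valuation K x ≠ 1 →
      (Ideal.absNorm v.asIdeal : ℝ) ≤ y) ∧
    Height.logHeight₁ x ≤ H}

/-- Let `K` be a number field, `S` a finite set of primes, `m ≥ 2` and `ε > 0`. For all
`X, y, H ≥ 1` at most `C y X ^ ((m + 1) / (2 m) + ε) (1 + log H)` integral points of the line with a
stacky point of order `m` at `1` have height at most `H`, `N^(1)(0 + ∞, x) ≤ log X` and meet
`0 + ∞` only at primes of norm at most `y`. -/
theorem result (K : Type) [Field K] [NumberField K] (S : Set (HeightOneSpectrum (𝓞 K)))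
    (hS : S.Finite) (m : ℕ) (ε : ℝ) (hm : 2 ≤ m) (hε : 0 < ε) :
    ∃ C : ℝ, ∀ X y H : ℝ, 1 ≤ X → 1 ≤ y → 1 ≤ H → (Points S m X y H).Finite ∧
      ((Points S m X y H).ncard : ℝ) ≤
        C * y * X ^ (((m : ℝ) + 1) / (2 * m) + ε) * (1 + Real.log H) :=
  Pool.Agent.TH876.NP.stacky K (Pool.Agent.TH876.NP.two K (Pool.Agent.TH876.NP.choose K)
    (Pool.Agent.TH876.NP.core K (Pool.Agent.TH876.NP.scale K (Pool.Agent.TH876.NP.classes K)
      (Pool.Agent.TH876.NP.roots K) (Pool.Agent.TH876.NP.gap K)))) S hS m ε hm hε

end Pool.Agent.Results.MP_a41896_nt.StackyLineAllHeights
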