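import Mathlib
import Pool.Agent.TH905.VF.Stk

/-!
# Vojta's conjecture for the root stacks of projective spaces along hyperplanes

Let `a_0, …, a_{r-1}` be linear forms in `n + 1` variables over a number field `K`, any `n + 1` of them
linearly independent, so that the hyperplanes `H_i : a_i = 0` form a divisor with normal crossings. Let
`𝒳` be the root stack of `ℙ^n` of order `e_i ≥ 1` along `H_i` for all `i`, with coarse space `ℙ^n`,
and for a set `J` of indices let `𝒟_J` be the sum of the stacky divisors above the `H_i`, `i ∈ J`. Then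
`K_𝒳 + 𝒟_J` is the pullback of `K + ∑_{i ∈ J} H_i + ∑_{i ∉ J} (1 - 1 / e_i) H_i`, so that
`h_{K_𝒳 + 𝒟_J}(x) = (r - n - 1 - ∑_{i ∉ J} 1 / e_i) h(x)`. Let `S` be a finite set of primes of `K`.

Let `L` be a number field which contains `K` and let `x ∈ ℙ^n(K)` be off the `H_i`. Then `x` comes
from an integral point of `𝒳` over the ring of `S`-integers of `L` if for every prime `w` of `L` not
above `S` and all `i` the intersection number of `x` and `H_i` at `w`, that is
`log (|a_i|_w |x|_w / |a_i(x)|_w) / log N(w)`, is divisible by `e_i`; such fields `L` exist for every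
`x`, for example `L ∋ (a_i(x) / a_j(x))^(1 / e)`, `e_i ∣ e`, up to the primes above finitely many ones.

We prove for all `x ∈ ℙ^n(K)` outside a sparse set, for ALL number fields `L ⊇ K`, ALL orders `e_i` such
that `x` comes from an integral point of `𝒳` over `L`, and ALL `J`
`(θ - ∑_{i ∉ J} 1 / e_i) h(x) ≤ N^{(1)}(𝒟_J, x) + d(L) + c`,
with truncated counting function and logarithmic discriminant of the point over `L`. For
`θ = r - n - 1` the left side is `h_{K_𝒳 + 𝒟_J}(x)`. The exponent of the exceptional set is smaller
than the one of all points for all `θ < r`.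

Proof: the truncated counting function of `H_0 + ⋯ + H_{r-1}` over `K` is bounded by the logarithmic
discriminant of `L` and by the one over `L`, of which the primes close to some `H_i`, `i ∉ J`, make up
at most `h(x) / e_i` each. The `x` for which the truncated counting function over `K` is small are
few by `HyperplaneExceptions` (MP_9ec3f0_nt), a starting file.
-/

set_option autoImplicit false

namespace Pool.Agent.Results.MP_a41896_nt.StackyProjectiveSpaces

open NumberField IsDedekindDomain LinearAlgebra.Projectivization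

/-- The value of the linear form with coefficients `a` at `x`. -/
def lin {K : Type} [Field K] {n : ℕ} (a x : Fin (n + 1) → K) : K := ∑ j, a j * x j

/-- The local height `log (|a|_w |x|_w / |a(x)|_w)` of `x ∈ ℙ^n(K)` with respect to the hyperplane
`a = 0` at the prime `w` of `L`, for the absolute value `|b|_w = N(w) ^ (- w(b))`: `log N(w)` times the
intersection number at `w`. -/
noncomputable def localHeight {K : Type} (L : Type) [Field K] [Field L] [NumberField L] [Algebra K L]
    {n : ℕ} (a x : Fin (n + 1) → K) (w : HeightOneSpectrum (𝓞 L)) : ℝ :=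
  Real.log ((⨆ j, FinitePlace.mk w (algebraMap K L (a j))) *
    (⨆ j, FinitePlace.mk w (algebraMap K L (x j))) / FinitePlace.mk w (algebraMap K L (lin a x)))

/-- The absolute logarithmic height of a point of `ℙ^n(K)`. -/
noncomputable def height {K : Type} [Field K] [NumberField K] {n : ℕ}
    (x : ℙ K (Fin (n + 1) → K)) : ℝ := Real.log x.mulHeight / Module.finrank ℚ K

/-- The prime `w` of `L` is not above a prime in `S`. -/
def Outside {K L : Type} [Field K] [NumberField K] [Field L] [NumberField L] [Algebra K L]
    (S : Finset (HeightOneSpectrum (𝓞 K))) (w : HeightOneSpectrum (𝓞 L)) : Prop :=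
  ∀ v ∈ S, ¬ w.asIdeal.LiesOver v.asIdeal

open Classical in
/-- The truncated counting function `N^{(1)}(𝒟_J, x)`: the sum of `log N(w) / [L : ℚ]` over the primes
`w` of `L` not above `S` at which the local height with respect to some `H_i`, `i ∈ J`, is
positive. -/
noncomputable def truncated {K : Type} (L : Type) [Field K] [NumberField K] [Field L] [NumberField L]
    [Algebra K L] {n r : ℕ} (S : Finset (HeightOneSpectrum (𝓞 K))) (a : Fin r → Fin (n + 1) → K)
    (J : Finset (Fin r)) (x : ℙ K (Fin (n + 1) → K)) : ℝ :=
  (∑ᶠ w : HeightOneSpectrum (𝓞 L),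
    if Outside S w ∧ ∃ i ∈ J, 0 < localHeight L (a i) x.rep w
    then Real.log (Ideal.absNorm w.asIdeal) else 0) / Module.finrank ℚ L

/-- The point `x` comes from an integral point over the `S`-integers of `L` of the root stack with
orders `e_i`: all intersection numbers with `H_i` outside `S` are divisible by `e_i`. -/
def Integral {K : Type} (L : Type) [Field K] [NumberField K] [Field L] [NumberField L]
    [Algebra K L] {n r : ℕ} (S : Finset (HeightOneSpectrum (𝓞 K))) (a : Fin r → Fin (n + 1) → K)
    (e : Fin r → ℕ) (x : ℙ K (Fin (n + 1) → K)) : Prop :=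
  ∀ w : HeightOneSpectrum (𝓞 L), Outside S w → ∀ i, ∃ m : ℕ,
    localHeight L (a i) x.rep w = m * e i * Real.log (Ideal.absNorm w.asIdeal)

/-- The logarithmic discriminant `log |disc L| / [L : ℚ]`. -/
noncomputable def logDisc (L : Type) [Field L] [NumberField L] : ℝ :=
  Real.log |(discr L : ℝ)| / Module.finrank ℚ L

/-- The exceptional points `x ∈ ℙ^n(K)` off the hyperplanes, of height at most `log B`: for some number
field `L` which contains `K`, some orders `e_i ≥ 1` such that `x` comes from an integral point over `L`,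
and some `J`, the inequality
`(θ - ∑_{i ∉ J} 1 / e_i) h(x) ≤ N^{(1)}(𝒟_J, x) + d(L) + c` fails. -/
def exceptional {K : Type} [Field K] [NumberField K] {n r : ℕ}
    (S : Finset (HeightOneSpectrum (𝓞 K))) (a : Fin r → Fin (n + 1) → K) (θ c B : ℝ) :
    Set (ℙ K (Fin (n + 1) → K)) :=
  {x | (∀ i, lin (a i) x.rep ≠ 0) ∧ Real.exp (height x) ≤ B ∧
    ∃ (L : Type) (_ : Field L) (_ : NumberField L) (_ : Algebra K L) (e : Fin r → ℕ)
      (J : Finset (Fin r)), (∀ i, 1 ≤ e i) ∧ Integral L S a e x ∧
      truncated L S a J x + logDisc L + c < (θ - ∑ i ∈ Jᶜ, 1 / (e i : ℝ)) * height x}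

/-- The exponent: the smaller of `θ (1 - binom(r - n, n + 1) / binom(r, n + 1))` and
`(n + 1) (1 - n (r - θ) / (r (r - 1)))`. It is smaller than `n + 1` for `θ < r`. -/
noncomputable def exponent (n r : ℕ) (θ : ℝ) : ℝ :=
  min (θ * (1 - ((r - n).choose (n + 1) : ℝ) / (r.choose (n + 1) : ℝ)))
    (((n : ℝ) + 1) * (1 - (n : ℝ) * ((r : ℝ) - θ) / ((r : ℝ) * ((r : ℝ) - 1))))

/-- **Vojta's conjecture for the root stacks of projective spaces along hyperplanes.** Let `K` be a
number field, `n ≥ 1`, `r ≥ n + 1`, and let `a_0, …, a_{r-1}` be linear forms in `n + 1` variables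
over `K`, any `n + 1` of them linearly independent. Let `S` be a finite set of primes of `K`, let
`θ ≥ 0` and `c` be real and `δ > 0`. For all but `M B ^ ([K : ℚ] exponent(n, r, θ) + δ)` of the points
`x ∈ ℙ^n(K)` of height at most `B` off the hyperplanes, for ALL number fields `L` which contain `K`,
ALL orders `e_i ≥ 1` such that `x` comes from an integral point over the `S`-integers of `L` of the
root stack with orders `e_i`, and ALL sets `J` of indices
`(θ - ∑_{i ∉ J} 1 / e_i) h(x) ≤ N^{(1)}(𝒟_J, x) + d(L) + c`. -/
theorem result (K : Type) [Field K] [NumberField K] (n r : ℕ) (hn : 1 ≤ n) (hr : n + 1 ≤ r)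
    (a : Fin r → Fin (n + 1) → K)
    (ha : ∀ I : Finset (Fin r), I.card = n + 1 → LinearIndependent K (fun i : I => a i))
    (S : Finset (HeightOneSpectrum (𝓞 K))) (θ c δ : ℝ) (hθ : 0 ≤ θ) (hδ : 0 < δ) :
    ∃ M : ℝ, ∀ B : ℝ, 1 ≤ B → (exceptional S a θ c B).Finite ∧
      ((exceptional S a θ c B).ncard : ℝ) ≤
        M * B ^ ((Module.finrank ℚ K : ℝ) * exponent n r θ + δ) := by
  classical
  have hd : (0 : ℝ) < Module.finrank ℚ K := by exact_mod_cast Module.finrank_pos
  set d : ℝ := (Module.finrank ℚ K : ℝ) with hdd
  obtain ⟨M, hM⟩ := Pool.Agent.TH905.VF.stk_main K n r hn hr a ha S θ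
    (d * c + Real.log |(discr K : ℝ)|) (δ / d) hθ (by positivity)
  refine ⟨M, fun B hB => ?_⟩
  have hB0 : 0 < B := by linarith
  obtain ⟨h1, h2⟩ := hM (B ^ d) (Real.one_le_rpow hB hd.le)
  have hsub : exceptional S a θ c B ⊆ Pool.Agent.TH905.VF.ES S a θ
      (d * c + Real.log |(discr K : ℝ)|) (B ^ d) := by
    rintro x ⟨hne, hB', L, i1, i2, i3, e, J, he, hint, hv⟩
    refine ⟨hne, ?_, L, i1, i2, i3, e, J, he, hint, ?_⟩
    · have h3 := hB'
      rw [← Real.le_log_iff_exp_le hB0] at h3
      unfold height at h3
      rw [← hdd, div_le_iff₀ hd, mul_comm, ← Real.log_rpow hB0] at h3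
      have hpos : 0 < x.mulHeight := lt_of_lt_of_le one_pos x.one_le_mulHeight
      exact (Real.log_le_log_iff hpos (Real.rpow_pos_of_pos hB0 _)).1 h3
    · have hL : (0 : ℝ) < Module.finrank K L := Pool.Agent.TH905.VF.finrank_pos'
      have htow : (Module.finrank ℚ L : ℝ) = d * Module.finrank K L := by
        rw [hdd]
        exact_mod_cast (Module.finrank_mul_finrank ℚ K L).symm
      have e1 : d * truncated L S a J x = Pool.Agent.TH905.VF.nJ L S a J x.rep := by
        have e0 : truncated L S a J x = (∑ᶠ w : HeightOneSpectrum (𝓞 L),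
            if Outside S w ∧ ∃ i ∈ J, 0 < localHeight L (a i) x.rep w
            then Real.log (Ideal.absNorm w.asIdeal) else 0) / Module.finrank ℚ L := rfl
        rw [e0, htow]
        have e00 : Pool.Agent.TH905.VF.nJ L S a J x.rep = (∑ᶠ w : HeightOneSpectrum (𝓞 L),
            if Outside S w ∧ ∃ i ∈ J, 0 < localHeight L (a i) x.rep w
            then Real.log (Ideal.absNorm w.asIdeal) else 0) / Module.finrank K L := by
          unfold Pool.Agent.TH905.VF.nJ
          congr 1
          exact finsum_congr fun w => if_congr Iff.rfl rfl rfl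
        rw [e00]
        field_simp
      have e2 : d * logDisc L = Pool.Agent.TH905.VF.ld K L + Real.log |(discr K : ℝ)| := by
        unfold logDisc Pool.Agent.TH905.VF.ld
        rw [htow]
        field_simp
        ring
      have e3 : d * height x = Real.log x.mulHeight := by
        unfold height
        rw [← hdd]
        field_simp
      have h4 := mul_lt_mul_of_pos_left hv hd
      rw [← e1, ← e3]
      have h5 : d * (truncated L S a J x + logDisc L + c) =
          d * truncated L S a J x + d * logDisc L + d * c := by ring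
      rw [h5, e2] at h4
      have h6 : d * ((θ - ∑ i ∈ Jᶜ, 1 / (e i : ℝ)) * height x) =
          (θ - ∑ i ∈ Jᶜ, 1 / (e i : ℝ)) * (d * height x) := by ring
      rw [h6] at h4
      linarith
  refine ⟨h1.subset hsub, ?_⟩
  refine le_trans (Nat.cast_le.2 (Set.ncard_le_ncard hsub h1)) (h2.trans (le_of_eq ?_))
  rw [← Real.rpow_mul hB0.le]
  congr 2
  show d * (exponent n r θ + δ / d) = _
  field_simp

end Pool.Agent.Results.MP_a41896_nt.StackyProjectiveSpaces
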